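import Pool.Agent.BOG.Stmts

/-!
# Squad BOG, row CST
-/

set_option autoImplicit false

namespace Pool.Agent.BOG.H10

open Polynomial Finset

universe v

theorem cst : CstStmt.{v} := by
  intro K _ κ D hκ hD hchar hder
  obtain ⟨i0, hi0, hmax⟩ : ∃ i0, κ i0 ≠ 0 ∧ ∀ a, (κ a).natDegree ≤ (κ i0).natDegree := by
    obtain ⟨j, hj⟩ : ∃ j, κ j ≠ 0 := by
      by_contra hcon
      push Not at hcon
      exact hκ (funext hcon)
    obtain ⟨i1, -, hi1⟩ := Finset.exists_max_image (Finset.univ : Finset (Fin 3))
      (fun a => (κ a).natDegree) ⟨j, Finset.mem_univ j⟩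
    by_cases h0 : κ i1 = 0
    · refine ⟨j, hj, fun a => ?_⟩
      have := hi1 a (Finset.mem_univ a)
      rw [h0, natDegree_zero] at this
      omega
    · exact ⟨i1, h0, fun a => hi1 a (Finset.mem_univ a)⟩
  have hlc : (κ i0).leadingCoeff ≠ 0 := leadingCoeff_ne_zero.2 hi0
  refine ⟨fun a => (κ a).coeff (κ i0).natDegree / (κ i0).leadingCoeff, κ i0, ?_, hi0, ?_⟩
  · intro h
    have h1 := congrFun h i0
    simp only [Pi.zero_apply, coeff_natDegree, div_self hlc] at h1
    exact one_ne_zero h1
  · intro a
    set g := κ i0 with hg
    set e := g.natDegree with he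
    set lam := (κ a).coeff e / g.leadingCoeff with hlam
    set s := κ a - C lam * g with hs
    have hs0 : s = 0 := by
      by_contra hne
      have hrel : derivative s * g = s * derivative g := by
        rw [hs, derivative_sub, derivative_C_mul, sub_mul, sub_mul, hder a i0]
        ring
      have hdeg : s.natDegree ≤ e :=
        (natDegree_sub_le _ _).trans (max_le (hmax a) (natDegree_C_mul_le _ _))
      have hce : s.coeff e = 0 := by
        rw [hs, coeff_sub, coeff_C_mul, hlam]
        have : g.coeff e = g.leadingCoeff := rfl
        rw [this, div_mul_cancel₀ _ hlc, sub_self]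
      have hlcs : s.coeff s.natDegree ≠ 0 := leadingCoeff_ne_zero.2 hne
      have hlt : s.natDegree < e := by
        rcases hdeg.lt_or_eq with h | h
        · exact h
        · rw [h] at hlcs
          exact absurd hce hlcs
      have heD : e ≤ D := hD i0
      have hge : g.coeff e ≠ 0 := hlc
      have hdg : (derivative g).natDegree ≤ e - 1 := natDegree_derivative_le g
      have h2 : (s * derivative g).coeff (s.natDegree + (e - 1)) =
          s.coeff s.natDegree * (derivative g).coeff (e - 1) :=
        coeff_mul_add_eq_of_natDegree_le le_rfl hdg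
      have h3 : (derivative g).coeff (e - 1) = g.coeff e * (e : K) := by
        rw [coeff_derivative]
        have h4 : e - 1 + 1 = e := by omega
        rw [h4]
        congr 1
        have h5 : ((e - 1 : ℕ) : K) + 1 = ((e - 1 + 1 : ℕ) : K) := by push_cast; rfl
        rw [h5, h4]
      rcases Nat.eq_zero_or_pos s.natDegree with hf | hf
      · have h6 : derivative s = 0 := by
          rw [eq_C_of_natDegree_eq_zero hf, derivative_C]
        rw [h6, zero_mul] at hrel
        rw [← hrel, coeff_zero, h3] at h2
        exact mul_ne_zero hlcs (mul_ne_zero hge (hchar e (by omega) heD)) h2.symm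
      · have hds : (derivative s).natDegree ≤ s.natDegree - 1 := natDegree_derivative_le s
        have h7 : (derivative s * g).coeff (s.natDegree - 1 + e) =
            (derivative s).coeff (s.natDegree - 1) * g.coeff e :=
          coeff_mul_add_eq_of_natDegree_le hds le_rfl
        have h8 : (derivative s).coeff (s.natDegree - 1) =
            s.coeff s.natDegree * (s.natDegree : K) := by
          rw [coeff_derivative]
          have h4 : s.natDegree - 1 + 1 = s.natDegree := by omega
          rw [h4]
          congr 1
          have h5 : ((s.natDegree - 1 : ℕ) : K) + 1 = ((s.natDegree - 1 + 1 : ℕ) : K) := by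
            push_cast; rfl
          rw [h5, h4]
        have h9 : s.natDegree - 1 + e = s.natDegree + (e - 1) := by omega
        rw [h9, hrel, h2, h3, h8] at h7
        have h10 : ((e - s.natDegree : ℕ) : K) ≠ 0 := hchar _ (by omega) (by omega)
        rw [Nat.cast_sub hlt.le] at h10
        have h11 : s.coeff s.natDegree * g.coeff e * ((e : K) - (s.natDegree : K)) = 0 := by
          linear_combination h7
        exact mul_ne_zero (mul_ne_zero hlcs hge) h10 h11
    rw [hs, sub_eq_zero] at hs0
    exact hs0

end Pool.Agent.BOG.H10
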